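import Pool.Agent.Helper53.SL.St

set_option autoImplicit false

open Polynomial MeasureTheory Set
open Pool.Agent.Helper96.Salem (lm lm_nonneg lm_measurable geo geo_nonneg logMahler_lower SVP SV)

noncomputable section

namespace Pool.Agent.Helper2.SL

open Pool.Agent.Helper53.SL

/-- upper bound of the square of the logarithm -/
theorem log_sq_le {x M : ℝ} (hx : 0 ≤ x) (hxM : x ≤ M) :
    (Real.log x) ^ 2 ≤ lm x ^ 2 + (Real.log M) ^ 2 := by
  have hlm := lm_nonneg x
  rcases eq_or_lt_of_le hx with h0 | h0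
  · rw [← h0, Real.log_zero]
    nlinarith [sq_nonneg (lm 0), sq_nonneg (Real.log M)]
  · rcases le_total 0 (Real.log x) with h | h
    · have := Real.log_le_log h0 hxM
      nlinarith [sq_nonneg (lm x)]
    · have h1 : -Real.log x ≤ lm x := by
        unfold Pool.Agent.Helper96.Salem.lm
        exact le_max_left _ _
      nlinarith [sq_nonneg (Real.log M)]

/-- the coefficients of a polynomial with few terms and bounded Mahler measure are bounded -/
theorem coeff_bd {k N : ℕ} {K : ℝ} (hK : 1 ≤ K) (hN : 1 ≤ N) (h : SVP k K N) {A : ℤ[X]}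
    (hk : A.support.card ≤ k) {M : ℝ} (hM : (cx A).mahlerMeasure ≤ M) (i : ℕ) :
    ‖(cx A).coeff i‖ ≤ max M 1 * Real.exp (N * (K * geo)) := by
  have hM1 : (0 : ℝ) < max M 1 := lt_of_lt_of_le one_pos (le_max_right _ _)
  by_cases h2 : (cx A).coeff i = 0
  · rw [h2, norm_zero]
    positivity
  · have hcx : cx A ≠ 0 := by
      intro h0
      rw [h0] at h2
      simp at h2
    have h3 := logMahler_lower hK hN h
      ((Finset.card_le_card (support_map_subset _ _)).trans hk) i h2
    rw [logMahlerMeasure_eq_log_MahlerMeasure] at h3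
    have hpos : 0 < (cx A).mahlerMeasure := mahlerMeasure_pos_of_ne_zero hcx
    have h5 : Real.log (cx A).mahlerMeasure ≤ Real.log (max M 1) :=
      Real.log_le_log hpos (hM.trans (le_max_left _ _))
    have h4 : 0 < ‖(cx A).coeff i‖ := norm_pos_iff.2 h2
    have h6 : Real.log ‖(cx A).coeff i‖ ≤ Real.log (max M 1 * Real.exp (N * (K * geo))) := by
      rw [Real.log_mul hM1.ne' (Real.exp_pos _).ne', Real.log_exp]
      have h7 : Real.log ‖(cx A).coeff i‖ - N * (K * geo) ≤ Real.log (cx A).mahlerMeasure := h3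
      linarith
    exact (Real.log_le_log_iff h4 (by positivity)).1 h6

theorem hUni (h1 : StLtw) : StUni := by
  intro k M
  obtain ⟨K, hK, N, hN, h⟩ := SV k
  obtain ⟨C, hC0, hC⟩ := h1 k
  set D : ℝ := max M 1 * Real.exp (N * (K * geo)) with hD
  have hD1 : 1 ≤ D := by
    have h2 : (1 : ℝ) ≤ max M 1 := le_max_right _ _
    have h3 : (1 : ℝ) ≤ Real.exp (N * (K * geo)) := by
      apply Real.one_le_exp
      have := geo_nonneg
      positivity
    rw [hD]
    nlinarith
  set M1 : ℝ := (k + 1) * D with hM1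
  have hM11 : 1 ≤ M1 := by
    have : (0 : ℝ) ≤ k := Nat.cast_nonneg k
    rw [hM1]
    nlinarith
  refine ⟨(2 * Real.pi)⁻¹ * (C + 2 * Real.pi * (Real.log M1) ^ 2), ?_⟩
  intro A hA hk hM
  -- a nonzero coefficient
  obtain ⟨j, hj⟩ : ∃ j, A.coeff j ≠ 0 := by
    by_contra hcon
    push Not at hcon
    exact hA (Polynomial.ext (by simpa using hcon))
  have hcj : 1 ≤ ‖(cx A).coeff j‖ := by
    have e : (cx A).coeff j = (A.coeff j : ℂ) := by
      unfold cx
      rw [coeff_map]
      rfl
    rw [e, Complex.norm_intCast]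
    exact_mod_cast Int.one_le_abs hj
  have hcard : (cx A).support.card ≤ k :=
    (Finset.card_le_card (support_map_subset _ _)).trans hk
  have hint := hC (cx A) hcard j hcj
  -- upper bound on the circle
  have hup : ∀ t : ℝ, ‖(cx A).eval (circleMap 0 1 t)‖ ≤ M1 := by
    intro t
    rw [eval_eq_sum, sum_def]
    refine (norm_sum_le _ _).trans ?_
    have h5 : ∀ i ∈ (cx A).support, ‖(cx A).coeff i * circleMap 0 1 t ^ i‖ ≤ D := by
      intro i _
      rw [norm_mul, norm_pow, Pool.Agent.Helper96.Salem.circle_norm, one_pow, mul_one]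
      exact coeff_bd hK hN h hk hM i
    refine (Finset.sum_le_card_nsmul _ _ _ h5).trans ?_
    rw [nsmul_eq_mul, hM1]
    have h6 : ((cx A).support.card : ℝ) ≤ k := by exact_mod_cast hcard
    nlinarith
  have hcont : Continuous (fun t : ℝ => (cx A).eval (circleMap 0 1 t)) :=
    (cx A).continuous.comp (continuous_circleMap 0 1)
  have hmeas : Measurable (fun t : ℝ => lm ‖(cx A).eval (circleMap 0 1 t)‖) :=
    lm_measurable.comp hcont.norm.measurable
  set μ : Measure ℝ := volume.restrict (Ioc 0 (2 * Real.pi)) with hμ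
  have hI : Integrable (fun t : ℝ => lm ‖(cx A).eval (circleMap 0 1 t)‖ ^ 2) μ := by
    refine ⟨(hmeas.pow_const 2).aestronglyMeasurable, ?_⟩
    rw [hasFiniteIntegral_iff_ofReal (Filter.Eventually.of_forall fun t => sq_nonneg _)]
    rw [hμ, ← restrict_Ico_eq_restrict_Ioc]
    exact hint.trans_lt ENNReal.ofReal_lt_top
  have hIle : ∫ t, lm ‖(cx A).eval (circleMap 0 1 t)‖ ^ 2 ∂μ ≤ C := by
    rw [integral_eq_lintegral_of_nonneg_ae (Filter.Eventually.of_forall fun t => sq_nonneg _)
      (hmeas.pow_const 2).aestronglyMeasurable]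
    rw [hμ, ← restrict_Ico_eq_restrict_Ioc]
    exact ENNReal.toReal_le_of_le_ofReal hC0 hint
  have hvol : μ.real univ = 2 * Real.pi := by
    rw [hμ, Measure.real, Measure.restrict_apply_univ, Real.volume_Ioc, sub_zero,
      ENNReal.toReal_ofReal (by positivity)]
  have hdom : Integrable (fun t : ℝ => lm ‖(cx A).eval (circleMap 0 1 t)‖ ^ 2
      + (Real.log M1) ^ 2) μ := hI.add (integrable_const _)
  have hmain : ∫ t, (Real.log ‖(cx A).eval (circleMap 0 1 t)‖) ^ 2 ∂μ
      ≤ C + 2 * Real.pi * (Real.log M1) ^ 2 := by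
    have h7 : ∫ t, (Real.log ‖(cx A).eval (circleMap 0 1 t)‖) ^ 2 ∂μ ≤
        ∫ t, (lm ‖(cx A).eval (circleMap 0 1 t)‖ ^ 2 + (Real.log M1) ^ 2) ∂μ := by
      refine integral_mono_of_nonneg (Filter.Eventually.of_forall fun t => sq_nonneg _) hdom
        (Filter.Eventually.of_forall fun t => ?_)
      exact log_sq_le (norm_nonneg _) (hup t)
    rw [integral_add hI (integrable_const _), integral_const, hvol, smul_eq_mul] at h7
    linarith
  unfold mom
  rw [Real.circleAverage_def, intervalIntegral.integral_of_le (by positivity), smul_eq_mul]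
  refine mul_le_mul_of_nonneg_left ?_ (by positivity)
  refine le_of_eq_of_le ?_ hmain
  refine integral_congr_ae (Filter.Eventually.of_forall fun t => ?_)
  simp [cx]

end Pool.Agent.Helper2.SL

end
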