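import Pool.Agent.Helper53.SL.St

set_option autoImplicit false

open Polynomial MeasureTheory Set
open Pool.Agent.Helper96.Salem (lm lm_nonneg lm_measurable)

noncomputable section

namespace Pool.Agent.Helper2.SL

open Pool.Agent.Helper53.SL

theorem abs_log_le {x M : ℝ} (hx : 0 ≤ x) (hM : 1 ≤ M) (hxM : x ≤ M) :
    |Real.log x| ≤ lm x + Real.log M := by
  have hlm := lm_nonneg x
  have hlM : 0 ≤ Real.log M := Real.log_nonneg hM
  rcases eq_or_lt_of_le hx with h0 | h0
  · rw [← h0] at hlm ⊢
    rw [Real.log_zero, abs_zero]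
    linarith
  · rcases le_total 0 (Real.log x) with h | h
    · rw [abs_of_nonneg h]
      have := Real.log_le_log h0 hxM
      linarith
    · rw [abs_of_nonpos h]
      have : -Real.log x ≤ lm x := by
        unfold Pool.Agent.Helper96.Salem.lm
        exact le_max_left _ _
      linarith

theorem hMem (h1 : StLtw) : StMem := by
  intro G hG
  obtain ⟨j, hj⟩ : ∃ j, G.coeff j ≠ 0 := by
    by_contra hcon
    push Not at hcon
    exact hG (Polynomial.ext (by simpa using hcon))
  set g := G.coeff j with hg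
  set G1 : ℂ[X] := C (g⁻¹) * G with hG1
  have hG1c : G1.coeff j = 1 := by
    rw [hG1, coeff_C_mul, ← hg, inv_mul_cancel₀ hj]
  have hGe : ∀ z, G.eval z = g * G1.eval z := by
    intro z
    rw [hG1, eval_mul, eval_C, ← mul_assoc, mul_inv_cancel₀ hj, one_mul]
  obtain ⟨K, hK0, hK⟩ := h1 G1.support.card
  have hint := hK G1 le_rfl j (by rw [hG1c, norm_one])
  have hcont : Continuous (fun t : ℝ => G1.eval (circleMap 0 1 t)) :=
    G1.continuous.comp (continuous_circleMap 0 1)
  have hcontG : Continuous (fun t : ℝ => G.eval (circleMap 0 1 t)) :=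
    G.continuous.comp (continuous_circleMap 0 1)
  have hmeas : Measurable (fun t : ℝ => lm ‖G1.eval (circleMap 0 1 t)‖) :=
    lm_measurable.comp hcont.norm.measurable
  -- `lm` is square integrable
  have hlm2 : MemLp (fun t : ℝ => lm ‖G1.eval (circleMap 0 1 t)‖) 2
      (volume.restrict (Ioc 0 (2 * Real.pi))) := by
    rw [memLp_two_iff_integrable_sq hmeas.aestronglyMeasurable]
    refine ⟨(hmeas.pow_const 2).aestronglyMeasurable, ?_⟩
    rw [hasFiniteIntegral_iff_ofReal (Filter.Eventually.of_forall fun t => sq_nonneg _)]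
    rw [← restrict_Ico_eq_restrict_Ioc]
    exact hint.trans_lt ENNReal.ofReal_lt_top
  -- the upper bound
  obtain ⟨M0, hM0⟩ := (isCompact_Icc (a := (0 : ℝ)) (b := 2 * Real.pi)).exists_bound_of_continuousOn
    hcont.continuousOn
  set M := max M0 1 with hM
  have hconst : MemLp (fun _ : ℝ => |Real.log ‖g‖| + Real.log M) 2
      (volume.restrict (Ioc 0 (2 * Real.pi))) := memLp_const _
  have hsum := hlm2.add hconst
  refine MemLp.mono' hsum ?_ ?_
  · exact (Real.measurable_log.comp hcontG.norm.measurable).aestronglyMeasurable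
  · rw [ae_restrict_iff' measurableSet_Ioc]
    refine Filter.Eventually.of_forall fun t ht => ?_
    have hb : ‖G1.eval (circleMap 0 1 t)‖ ≤ M :=
      (hM0 t ⟨ht.1.le, ht.2⟩).trans (le_max_left _ _)
    have h3 := abs_log_le (norm_nonneg _) (le_max_right M0 1) hb
    have hgoal : |Real.log ‖G.eval (circleMap 0 1 t)‖| ≤
        |Real.log ‖g‖| + |Real.log ‖G1.eval (circleMap 0 1 t)‖| := by
      rw [hGe, norm_mul]
      by_cases hz : ‖G1.eval (circleMap 0 1 t)‖ = 0
      · rw [hz, mul_zero, Real.log_zero, abs_zero]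
        positivity
      · rw [Real.log_mul (norm_ne_zero_iff.mpr hj) hz]
        exact abs_add_le _ _
    rw [Real.norm_eq_abs]
    simp only [Pi.add_apply]
    linarith

end Pool.Agent.Helper2.SL

end
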