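import Mathlib
import Pool.Agent.Helper65.SL.Base

/-! Project SL (helper65), module SML: the soft minimum, by helper2. -/

set_option maxSynthPendingDepth 3
set_option linter.unusedSectionVars false
set_option linter.deprecated false
set_option linter.unusedVariables false

namespace Pool.Agent.Helper2.SL

open Filter Topology
open scoped ContDiff Manifold
open Pool.Agent.Helper65.SL Pool.Agent.Helper23.Ric

section coordinates

variable {E : Type*} [NormedAddCommGroup E] [NormedSpace ℝ E] [FiniteDimensional ℝ E]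
variable {G : E → E →L[ℝ] E →L[ℝ] ℝ} {ψ : E → E} {z : E}

/-- the sum of the exponentials is positive -/
theorem sm_pos {n : ℕ} (hn : 0 < n) (k : ℝ) (θ : Fin n → E → ℝ) (y : E) :
    0 < ∑ j, Real.exp (-k * θ j y) := by
  have : Nonempty (Fin n) := ⟨⟨0, hn⟩⟩
  exact Finset.sum_pos (fun j _ => Real.exp_pos _) Finset.univ_nonempty

/-- first derivative of the soft minimum -/
theorem sm_fderiv {n : ℕ} (hn : 0 < n) {k : ℝ} (hk : 0 < k) (θ : Fin n → E → ℝ) (y : E)
    (hθ : ∀ j, DifferentiableAt ℝ (θ j) y) :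
    HasFDerivAt (fun y => -(1 / k) * Real.log (∑ j, Real.exp (-k * θ j y)))
      (∑ j, (Real.exp (-k * θ j y) / ∑ i, Real.exp (-k * θ i y)) • fderiv ℝ (θ j) y) y := by
  have hS := sm_pos hn k θ y
  have h1 : HasFDerivAt (fun y => ∑ j, Real.exp (-k * θ j y))
      (∑ j, Real.exp (-k * θ j y) • ((-k) • fderiv ℝ (θ j) y)) y :=
    HasFDerivAt.fun_sum fun j _ => ((hθ j).hasFDerivAt.const_mul (-k)).exp
  have h2 := (h1.log hS.ne').const_mul (-(1 / k))
  refine h2.congr_fderiv ?_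
  rw [Finset.smul_sum, Finset.smul_sum]
  refine Finset.sum_congr rfl fun j _ => ?_
  rw [smul_smul, smul_smul, smul_smul]
  congr 1
  field_simp

/-- the weights as exponentials -/
theorem sm_weight {n : ℕ} (hn : 0 < n) {k : ℝ} (hk : 0 < k) (θ : Fin n → E → ℝ) (y : E) (j : Fin n) :
    Real.exp (-k * θ j y) / ∑ i, Real.exp (-k * θ i y) =
      Real.exp (-k * (θ j y - (-(1 / k) * Real.log (∑ j, Real.exp (-k * θ j y))))) := by
  have hS := sm_pos hn k θ y
  have : -k * (θ j y - (-(1 / k) * Real.log (∑ j, Real.exp (-k * θ j y)))) =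
      -k * θ j y - Real.log (∑ j, Real.exp (-k * θ j y)) := by
    field_simp
    ring
  rw [this, Real.exp_sub, Real.exp_log hS]

/-- second derivative of the soft minimum -/
theorem sm_fderiv2 {n : ℕ} (hn : 0 < n) {k : ℝ} (hk : 0 < k) (θ : Fin n → E → ℝ) (z : E)
    (hθ : ∀ j, ContDiffAt ℝ 2 (θ j) z) (v w : E) :
    fderiv ℝ (fderiv ℝ (fun y => -(1 / k) * Real.log (∑ j, Real.exp (-k * θ j y)))) z v w =
      ∑ j, (Real.exp (-k * θ j z) / ∑ i, Real.exp (-k * θ i z)) *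
        (fderiv ℝ (fderiv ℝ (θ j)) z v w - k * (fderiv ℝ (θ j) z v -
          (∑ j, (Real.exp (-k * θ j z) / ∑ i, Real.exp (-k * θ i z)) * fderiv ℝ (θ j) z v)) *
            fderiv ℝ (θ j) z w) := by
  have hev : fderiv ℝ (fun y => -(1 / k) * Real.log (∑ j, Real.exp (-k * θ j y))) =ᶠ[𝓝 z]
      fun y => ∑ j, Real.exp (-k * (θ j y - (-(1 / k) * Real.log (∑ j, Real.exp (-k * θ j y))))) •
        fderiv ℝ (θ j) y := by
    have h1 : ∀ᶠ y in 𝓝 z, ∀ j, ContDiffAt ℝ 2 (θ j) y :=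
      Filter.eventually_all.2 fun j => (hθ j).eventually (by simp)
    filter_upwards [h1] with y hy
    rw [(sm_fderiv hn hk θ y fun j => (hy j).differentiableAt (by simp)).fderiv]
    refine Finset.sum_congr rfl fun j _ => ?_
    rw [sm_weight hn hk]
  rw [hev.fderiv_eq]
  have hu := sm_fderiv hn hk θ z fun j => (hθ j).differentiableAt (by simp)
  set u : E → ℝ := fun y => -(1 / k) * Real.log (∑ j, Real.exp (-k * θ j y)) with hudef
  set du : E →L[ℝ] ℝ := ∑ j, (Real.exp (-k * θ j z) / ∑ i, Real.exp (-k * θ i z)) •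
    fderiv ℝ (θ j) z with hdu
  have h2 : ∀ j, HasFDerivAt (fderiv ℝ (θ j)) (fderiv ℝ (fderiv ℝ (θ j)) z) z := fun j =>
    (((hθ j).fderiv_right (m := 1) (by norm_num)).differentiableAt (by simp)).hasFDerivAt
  have h3 : ∀ j, HasFDerivAt (fun y => Real.exp (-k * (θ j y - u y)))
      (Real.exp (-k * (θ j z - u z)) • ((-k) • (fderiv ℝ (θ j) z - du))) z := fun j =>
    ((((hθ j).differentiableAt (by simp)).hasFDerivAt.sub hu).const_mul (-k)).exp
  have h4 : HasFDerivAt (fun y => ∑ j, Real.exp (-k * (θ j y - u y)) • fderiv ℝ (θ j) y) _ z :=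
    HasFDerivAt.fun_sum fun j (_ : j ∈ Finset.univ) => (h3 j).smul (h2 j)
  have h5 := h4.fderiv
  simp only [hudef] at h5
  rw [h5]
  simp only [ContinuousLinearMap.sum_apply, ContinuousLinearMap.add_apply,
    ContinuousLinearMap.smul_apply, ContinuousLinearMap.smulRight_apply, smul_eq_mul,
    ContinuousLinearMap.sub_apply, ← sm_weight hn hk, hdu]
  refine Finset.sum_congr rfl fun j _ => ?_
  ring

theorem sml (h : GoodAt G z) {m n : ℕ} (hm : 2 ≤ m) (hn : 0 < n) {k : ℝ} (hk : 0 < k)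
    (θ : Fin n → E → ℝ) (hθ : ∀ j, ContDiffAt ℝ 2 (θ j) z) (e : Fin m → E) :
    ∑ j, (Real.exp (-k * θ j z) / ∑ i, Real.exp (-k * θ i z)) * pf m (θ j) G z e ≤
      pf m (fun y => -(1 / k) * Real.log (∑ j, Real.exp (-k * θ j y))) G z e := by
  have hS := sm_pos hn k θ z
  have hu := (sm_fderiv hn hk θ z fun j => (hθ j).differentiableAt (by simp)).fderiv
  have hu2 := sm_fderiv2 hn hk θ z hθ
  have hp0 : ∀ j, 0 ≤ Real.exp (-k * θ j z) / ∑ i, Real.exp (-k * θ i z) := fun j =>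
    div_nonneg (Real.exp_pos _).le hS.le
  have hp1 : ∑ j, Real.exp (-k * θ j z) / ∑ i, Real.exp (-k * θ i z) = 1 := by
    rw [← Finset.sum_div, div_self hS.ne']
  have hu1 : ∀ v, fderiv ℝ (fun y => -(1 / k) * Real.log (∑ j, Real.exp (-k * θ j y))) z v =
      ∑ j, (Real.exp (-k * θ j z) / ∑ i, Real.exp (-k * θ i z)) * fderiv ℝ (θ j) z v := by
    intro v
    rw [hu]
    simp only [ContinuousLinearMap.sum_apply, ContinuousLinearMap.smul_apply, smul_eq_mul]
  generalize hp : (fun j => Real.exp (-k * θ j z) / ∑ i, Real.exp (-k * θ i z)) = p at *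
  have hp' : ∀ j, Real.exp (-k * θ j z) / ∑ i, Real.exp (-k * θ i z) = p j := fun j =>
    congrFun hp j
  simp only [hp'] at hp0 hp1 hu1 hu2 ⊢
  unfold pf hess
  simp only [hu1, hu2, Finset.mul_sum]
  rw [Finset.sum_comm]
  refine Finset.sum_le_sum fun i _ => ?_
  generalize e i = v
  have hvar : 0 ≤ ∑ j, p j * (fderiv ℝ (θ j) z v - ∑ j, p j * fderiv ℝ (θ j) z v) ^ 2 :=
    Finset.sum_nonneg fun j _ => mul_nonneg (hp0 j) (sq_nonneg _)
  have hexp : ∑ j, p j * (fderiv ℝ (θ j) z v - ∑ j, p j * fderiv ℝ (θ j) z v) ^ 2 =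
      ∑ j, p j * fderiv ℝ (θ j) z v ^ 2 - (∑ j, p j * fderiv ℝ (θ j) z v) ^ 2 := by
    generalize hμ : ∑ j, p j * fderiv ℝ (θ j) z v = μ
    have : ∀ j, p j * (fderiv ℝ (θ j) z v - μ) ^ 2 =
        p j * fderiv ℝ (θ j) z v ^ 2 - 2 * μ * (p j * fderiv ℝ (θ j) z v) + μ ^ 2 * p j :=
      fun j => by ring
    simp only [this]
    rw [Finset.sum_add_distrib, Finset.sum_sub_distrib, ← Finset.mul_sum, ← Finset.mul_sum, hμ,
      hp1]
    ring
  have hd2 : ∑ j, p j * (fderiv ℝ (fderiv ℝ (θ j)) z v v - k * (fderiv ℝ (θ j) z v -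
          (∑ j, p j * fderiv ℝ (θ j) z v)) * fderiv ℝ (θ j) z v) =
      ∑ j, p j * fderiv ℝ (fderiv ℝ (θ j)) z v v -
        k * (∑ j, p j * fderiv ℝ (θ j) z v ^ 2 - (∑ j, p j * fderiv ℝ (θ j) z v) ^ 2) := by
    generalize hμ : ∑ j, p j * fderiv ℝ (θ j) z v = μ
    have : ∀ j, p j * (fderiv ℝ (fderiv ℝ (θ j)) z v v - k * (fderiv ℝ (θ j) z v - μ) *
        fderiv ℝ (θ j) z v) = p j * fderiv ℝ (fderiv ℝ (θ j)) z v v -
          k * (p j * fderiv ℝ (θ j) z v ^ 2) + k * μ * (p j * fderiv ℝ (θ j) z v) :=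
      fun j => by ring
    simp only [this]
    rw [Finset.sum_add_distrib, Finset.sum_sub_distrib, ← Finset.mul_sum, ← Finset.mul_sum, hμ]
    ring
  have hl : ∑ j, p j * (ricci G z v v - 2 * ((m : ℝ) - 1) * (fderiv ℝ (fderiv ℝ (θ j)) z v v -
        fderiv ℝ (θ j) z (chris G z v v)) - ((m : ℝ) - 1) * ((m : ℝ) - 2) *
          fderiv ℝ (θ j) z v ^ 2) =
      ricci G z v v - 2 * ((m : ℝ) - 1) * (∑ j, p j * fderiv ℝ (fderiv ℝ (θ j)) z v v -
        ∑ j, p j * fderiv ℝ (θ j) z (chris G z v v)) - ((m : ℝ) - 1) * ((m : ℝ) - 2) *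
          ∑ j, p j * fderiv ℝ (θ j) z v ^ 2 := by
    have : ∀ j, p j * (ricci G z v v - 2 * ((m : ℝ) - 1) * (fderiv ℝ (fderiv ℝ (θ j)) z v v -
        fderiv ℝ (θ j) z (chris G z v v)) - ((m : ℝ) - 1) * ((m : ℝ) - 2) *
          fderiv ℝ (θ j) z v ^ 2) = ricci G z v v * p j -
          2 * ((m : ℝ) - 1) * (p j * fderiv ℝ (fderiv ℝ (θ j)) z v v) +
          2 * ((m : ℝ) - 1) * (p j * fderiv ℝ (θ j) z (chris G z v v)) -
          ((m : ℝ) - 1) * ((m : ℝ) - 2) * (p j * fderiv ℝ (θ j) z v ^ 2) := fun j => by ring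
    simp only [this]
    rw [Finset.sum_sub_distrib, Finset.sum_add_distrib, Finset.sum_sub_distrib, ← Finset.mul_sum,
      ← Finset.mul_sum, ← Finset.mul_sum, ← Finset.mul_sum, hp1]
    ring
  rw [hl, hd2]
  rw [hexp] at hvar
  have hm' : (2 : ℝ) ≤ (m : ℝ) := by exact_mod_cast hm
  have h1 : 0 ≤ (2 * ((m : ℝ) - 1) * k + ((m : ℝ) - 1) * ((m : ℝ) - 2)) *
      (∑ j, p j * fderiv ℝ (θ j) z v ^ 2 - (∑ j, p j * fderiv ℝ (θ j) z v) ^ 2) := by
    refine mul_nonneg (add_nonneg ?_ ?_) hvar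
    · exact mul_nonneg (by linarith) hk.le
    · exact mul_nonneg (by linarith) (by linarith)
  linarith [h1]

end coordinates

end Pool.Agent.Helper2.SL
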